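import Pool.Agent.H632R3.RCGLower
import Pool.Agent.H632R3.Dih

open Finset Filter Topology

set_option linter.unusedSectionVars false

/-!
Collision bound for random generators: the second moment of the law of the walk.
-/

namespace Pool.Agent.TH977.VA

open Pool.Agent.H632R3 Pool.Agent.H632R3.RCG

noncomputable section

variable {G : Type} [Group G] [Fintype G] {k : ℕ}

/-- the product of a word -/
def pw {T : ℕ} (Z : Fin k → G) (w : Fin T → Fin k) : G := (List.ofFn fun j => Z (w j)).prod

theorem pw_eq {T : ℕ} (Z : Fin k → G) (w : Fin T → Fin k) : pw Z w = ((List.ofFn w).map Z).prod := by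
  unfold pw
  rw [List.map_ofFn]
  rfl

theorem stepLaw_succ (Z : Fin k → G) (T : ℕ) (g : G) :
    stepLaw Z (T + 1) g = (∑ a, stepLaw Z T ((Z a)⁻¹ * g)) / k := by
  classical
  have h1 : ((univ.filter fun w : Fin (T + 1) → Fin k =>
      (List.ofFn fun j => Z (w j)).prod = g).card : ℝ) =
      ∑ a : Fin k, ((univ.filter fun w : Fin T → Fin k =>
        (List.ofFn fun j => Z (w j)).prod = (Z a)⁻¹ * g).card : ℝ) := by
    have h2 : ∀ (T' : ℕ) (g' : G), ((univ.filter fun w : Fin T' → Fin k =>
        (List.ofFn fun j => Z (w j)).prod = g').card : ℝ) =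
        ∑ w : Fin T' → Fin k, if (List.ofFn fun j => Z (w j)).prod = g' then (1 : ℝ) else 0 := by
      intro T' g'
      rw [Finset.sum_boole]
    rw [h2]
    simp only [h2]
    rw [← (Fin.consEquiv fun _ : Fin (T + 1) => Fin k).sum_comp, Fintype.sum_prod_type]
    refine Finset.sum_congr rfl fun a _ => Finset.sum_congr rfl fun w _ => ?_
    have h3 : (List.ofFn fun j => Z ((Fin.consEquiv fun _ : Fin (T + 1) => Fin k) (a, w) j)).prod =
        Z a * (List.ofFn fun j => Z (w j)).prod := by
      rw [List.ofFn_succ, List.prod_cons]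
      rfl
    rw [h3]
    congr 1
    rw [eq_inv_mul_iff_mul_eq]
  unfold stepLaw
  have h2 := h1
  rw [← Finset.sum_div, pow_succ, div_div]
  congr 1

/-- discrete-time distance -/
def dT (Z : Fin k → G) (T : ℕ) : ℝ := (1 / 2) * ∑ g : G, |stepLaw Z T g - 1 / (Fintype.card G : ℝ)|

theorem dT_succ_le (hk : 0 < k) (Z : Fin k → G) (T : ℕ) : dT Z (T + 1) ≤ dT Z T := by
  have hk' : (0 : ℝ) < k := by exact_mod_cast hk
  set u := 1 / (Fintype.card G : ℝ) with hu
  have h1 : ∀ g, |stepLaw Z (T + 1) g - u| ≤ (∑ a, |stepLaw Z T ((Z a)⁻¹ * g) - u|) / k := by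
    intro g
    have e : stepLaw Z (T + 1) g - u = (∑ a, (stepLaw Z T ((Z a)⁻¹ * g) - u)) / k := by
      rw [stepLaw_succ, Finset.sum_sub_distrib, Finset.sum_const, Finset.card_univ,
        Fintype.card_fin, nsmul_eq_mul, sub_div]
      congr 1
      field_simp
    rw [e, abs_div, abs_of_pos hk']
    exact div_le_div_of_nonneg_right (Finset.abs_sum_le_sum_abs _ _) hk'.le
  unfold dT
  refine mul_le_mul_of_nonneg_left ?_ (by norm_num)
  calc ∑ g, |stepLaw Z (T + 1) g - u| ≤ ∑ g, (∑ a, |stepLaw Z T ((Z a)⁻¹ * g) - u|) / k :=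
        Finset.sum_le_sum fun g _ => h1 g
    _ = (∑ a, ∑ g, |stepLaw Z T ((Z a)⁻¹ * g) - u|) / k := by
        rw [← Finset.sum_div, Finset.sum_comm]
    _ = (∑ _a : Fin k, ∑ g, |stepLaw Z T g - u|) / k := by
        congr 1
        refine Finset.sum_congr rfl fun a _ => ?_
        exact Equiv.sum_comp (Equiv.mulLeft (Z a)⁻¹) fun g => |stepLaw Z T g - u|
    _ = ∑ g, |stepLaw Z T g - u| := by
        rw [Finset.sum_const, Finset.card_univ, Fintype.card_fin, nsmul_eq_mul]
        field_simp

theorem dT_anti (hk : 0 < k) (Z : Fin k → G) : Antitone (dT Z) :=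
  antitone_nat_of_succ_le fun T => dT_succ_le hk Z T

theorem dT_nonneg (Z : Fin k → G) (T : ℕ) : 0 ≤ dT Z T := by unfold dT; positivity

theorem card_pos' : (0 : ℝ) < Fintype.card G := by exact_mod_cast Fintype.card_pos

theorem sum_stepLaw (hk : 0 < k) (Z : Fin k → G) (T : ℕ) : ∑ g, stepLaw Z T g = 1 :=
  stepLaw_sum hk Z T univ fun _ => Finset.mem_univ _

theorem dT_le_one (hk : 0 < k) (Z : Fin k → G) (T : ℕ) : dT Z T ≤ 1 := by
  have hG := card_pos' (G := G)
  unfold dT
  have h1 : ∑ g, |stepLaw Z T g - 1 / (Fintype.card G : ℝ)| ≤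
      ∑ g, (stepLaw Z T g + 1 / (Fintype.card G : ℝ)) := by
    refine Finset.sum_le_sum fun g _ => ?_
    refine (abs_sub _ _).trans (le_of_eq ?_)
    rw [abs_of_nonneg (stepLaw_nonneg Z T g), abs_of_nonneg (by positivity)]
  rw [Finset.sum_add_distrib, sum_stepLaw hk, Finset.sum_const, Finset.card_univ,
    nsmul_eq_mul, mul_one_div, div_self hG.ne'] at h1
  linarith

/-- continuous time from discrete time -/
theorem tvDist_le (hk : 0 < k) (Z : Fin k → G) {t : ℝ} (ht : 0 ≤ t) (T : ℕ) :
    tvDist Z t ≤ ∑ j ∈ range T, pois t j + dT Z T := by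
  have hG := card_pos' (G := G)
  set u := 1 / (Fintype.card G : ℝ) with hu
  have hp1 : HasSum (pois t) 1 := poisson_hasSum t
  have h1 : ∀ g, HasSum (fun j => pois t j * (stepLaw Z j g - u)) (law Z t g - u) := by
    intro g
    have h2 := (law_hasSum hk Z ht g).sub (hp1.mul_right u)
    rw [one_mul] at h2
    refine h2.congr_fun fun j => ?_
    ring
  have hb : ∀ g j, ‖pois t j * (stepLaw Z j g - u)‖ ≤ pois t j * (1 + u) := by
    intro g j
    rw [norm_mul, Real.norm_eq_abs, Real.norm_eq_abs, abs_of_nonneg (pois_nonneg ht j)]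
    refine mul_le_mul_of_nonneg_left ?_ (pois_nonneg ht j)
    refine (abs_sub _ _).trans ?_
    rw [abs_of_nonneg (stepLaw_nonneg Z j g), abs_of_nonneg (by positivity)]
    linarith [stepLaw_le_one hk Z j g]
  have hsn : ∀ g, Summable fun j => ‖pois t j * (stepLaw Z j g - u)‖ := fun g =>
    Summable.of_nonneg_of_le (fun j => norm_nonneg _) (hb g) (hp1.summable.mul_right _)
  have h2 : ∀ g, |law Z t g - u| ≤ ∑' j, ‖pois t j * (stepLaw Z j g - u)‖ := by
    intro g
    rw [← (h1 g).tsum_eq, ← Real.norm_eq_abs]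
    exact norm_tsum_le_tsum_norm (hsn g)
  have h3 : tvDist Z t ≤ ∑' j, pois t j * dT Z j := by
    unfold tvDist
    calc (1 / 2) * ∑ g, |law Z t g - u|
        ≤ (1 / 2) * ∑ g, ∑' j, ‖pois t j * (stepLaw Z j g - u)‖ :=
          mul_le_mul_of_nonneg_left (Finset.sum_le_sum fun g _ => h2 g) (by norm_num)
      _ = ∑' j, (1 / 2) * ∑ g, ‖pois t j * (stepLaw Z j g - u)‖ := by
          rw [tsum_mul_left, Summable.tsum_finsetSum fun g _ => hsn g]
      _ = ∑' j, pois t j * dT Z j := by
          refine tsum_congr fun j => ?_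
          unfold dT
          simp only [norm_mul, Real.norm_eq_abs, abs_of_nonneg (pois_nonneg ht j)]
          rw [← Finset.mul_sum]
          ring
  have hs1 : Summable fun j => pois t j * dT Z j :=
    Summable.of_nonneg_of_le (fun j => mul_nonneg (pois_nonneg ht j) (dT_nonneg Z j))
      (fun j => mul_le_of_le_one_right (pois_nonneg ht j) (dT_le_one hk Z j)) hp1.summable
  have hs2 : HasSum (fun j => (if j ∈ range T then pois t j else 0) + pois t j * dT Z T)
      (∑ j ∈ range T, pois t j + 1 * dT Z T) := by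
    refine HasSum.add ?_ (hp1.mul_right _)
    have h4 : HasSum (fun j => if j ∈ range T then pois t j else 0)
        (∑ j ∈ range T, if j ∈ range T then pois t j else 0) :=
      hasSum_sum_of_ne_finset_zero (fun j hj => if_neg hj)
    have h5 : (∑ j ∈ range T, if j ∈ range T then pois t j else 0) = ∑ j ∈ range T, pois t j :=
      Finset.sum_congr rfl fun j hj => if_pos hj
    rwa [h5] at h4
  rw [one_mul] at hs2
  refine h3.trans ?_
  rw [← hs2.tsum_eq]
  refine hs1.tsum_le_tsum (fun j => ?_) hs2.summable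
  by_cases hj : j ∈ range T
  · rw [if_pos hj]
    have h4 := mul_le_of_le_one_right (pois_nonneg ht j) (dT_le_one hk Z j)
    have h5 := mul_nonneg (pois_nonneg ht j) (dT_nonneg Z T)
    linarith
  · rw [if_neg hj, zero_add]
    rw [Finset.mem_range, not_lt] at hj
    exact mul_le_mul_of_nonneg_left (dT_anti hk Z hj) (pois_nonneg ht j)

/-- lower tail of the Poisson distribution -/
theorem pois_low {t lam : ℝ} (ht : 0 ≤ t) (T : ℕ) (hl : 0 ≤ lam) :
    ∑ j ∈ range T, pois t j ≤ Real.exp (lam * T + t * (Real.exp (-lam) - 1)) := by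
  have h2 : HasSum (fun j : ℕ => (t * Real.exp (-lam)) ^ j / (j.factorial : ℝ))
      (Real.exp (t * Real.exp (-lam))) := by
    have := NormedSpace.expSeries_div_hasSum_exp (𝔸 := ℝ) (t * Real.exp (-lam))
    rwa [← Real.exp_eq_exp_ℝ] at this
  have h3 := h2.mul_left (Real.exp (lam * T) * Real.exp (-t))
  have h4 : Real.exp (lam * T) * Real.exp (-t) * Real.exp (t * Real.exp (-lam)) =
      Real.exp (lam * T + t * (Real.exp (-lam) - 1)) := by
    rw [← Real.exp_add, ← Real.exp_add]; congr 1; ring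
  rw [h4] at h3
  refine le_trans (Finset.sum_le_sum fun j hj => ?_)
    (sum_le_hasSum (range T) (fun j _ => ?_) h3)
  · unfold pois
    have hjT : (j : ℝ) ≤ T := by exact_mod_cast (Finset.mem_range.mp hj).le
    have e : Real.exp (lam * T) * Real.exp (-t) * ((t * Real.exp (-lam)) ^ j /
        (j.factorial : ℝ)) = Real.exp (lam * (T - j)) *
        (Real.exp (-t) * t ^ j / (j.factorial : ℝ)) := by
      have e1 : Real.exp (lam * (T - j)) = Real.exp (lam * T) * Real.exp (-lam) ^ j := by
        rw [← Real.exp_nat_mul, ← Real.exp_add]; congr 1; ring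
      rw [e1, mul_pow]
      ring
    rw [e]
    refine le_mul_of_one_le_left (by positivity) (Real.one_le_exp ?_)
    exact mul_nonneg hl (by linarith)
  · positivity

end

end Pool.Agent.TH977.VA
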