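import Pool.Agent.H632R3.RCGLower

open Finset Filter Topology

set_option linter.unusedSectionVars false

/-!
Words in a group with an abelian subgroup: the number of elements reachable in `T` steps.
-/

namespace Pool.Agent.TH977.VA

noncomputable section

variable {G : Type} [Group G] {k : ℕ} (A : Subgroup G)

/-- representative of a left coset -/
def rep (q : G ⧸ A) : G := Quotient.out q

theorem mk_rep (q : G ⧸ A) : (QuotientGroup.mk (rep A q) : G ⧸ A) = q := Quotient.out_eq q

variable (Z : Fin k → G)

theorem fl_mem (p : Fin k × (G ⧸ A)) :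
    (rep A (Z p.1 • p.2))⁻¹ * (Z p.1 * rep A p.2) ∈ A := by
  rw [← QuotientGroup.eq, mk_rep]
  have : (QuotientGroup.mk (Z p.1 * rep A p.2) : G ⧸ A) = Z p.1 • QuotientGroup.mk (rep A p.2) :=
    rfl
  rw [this, mk_rep]

/-- the `A`-part of a step -/
def fl (p : Fin k × (G ⧸ A)) : A :=
  ⟨(rep A (Z p.1 • p.2))⁻¹ * (Z p.1 * rep A p.2), fl_mem A Z p⟩

/-- the coset of a word -/
def cos : List (Fin k) → G ⧸ A
  | [] => QuotientGroup.mk 1
  | i :: l => Z i • cos l

/-- the encoding of a word -/
def enc : List (Fin k) → Multiset (Fin k × (G ⧸ A))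
  | [] => 0
  | i :: l => (i, cos A Z l) ::ₘ enc l

theorem enc_card (l : List (Fin k)) : (enc A Z l).card = l.length := by
  induction l with
  | nil => rfl
  | cons i l ih => rw [enc, Multiset.card_cons, ih, List.length_cons]

/-- commutative structure -/
def comm (hA : ∀ x ∈ A, ∀ y ∈ A, x * y = y * x) : CommMonoid A :=
  { (inferInstance : Monoid A) with
    mul_comm := fun x y => Subtype.ext (hA x x.2 y y.2) }

variable (hA : ∀ x ∈ A, ∀ y ∈ A, x * y = y * x)

/-- product in the abelian subgroup -/
def mprod (M : Multiset A) : A := @Multiset.prod A (comm A hA) M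

theorem mprod_zero : mprod A hA 0 = 1 := @Multiset.prod_zero A (comm A hA)

theorem mprod_cons (a : A) (M : Multiset A) : mprod A hA (a ::ₘ M) = a * mprod A hA M :=
  @Multiset.prod_cons A (comm A hA) a M

theorem mprod_add_ones (M : Multiset A) (m : ℕ) :
    mprod A hA (M + Multiset.replicate m 1) = mprod A hA M := by
  induction m with
  | zero => rw [Multiset.replicate_zero, add_zero]
  | succ m ih => rw [Multiset.replicate_succ, Multiset.add_cons, mprod_cons, ih, one_mul]

theorem base_mem : (rep A (QuotientGroup.mk 1))⁻¹ * 1 ∈ A := by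
  rw [← QuotientGroup.eq, mk_rep]

/-- the base point -/
def base : A := ⟨(rep A (QuotientGroup.mk 1))⁻¹ * 1, base_mem A⟩

theorem prod_eq (l : List (Fin k)) :
    (l.map Z).prod = rep A (cos A Z l) *
      (((mprod A hA ((enc A Z l).map (fl A Z)) : A) : G) * ((base A : A) : G)) := by
  induction l with
  | nil =>
    rw [enc, cos, Multiset.map_zero, mprod_zero, Subgroup.coe_one, one_mul]
    change _ = rep A (QuotientGroup.mk 1) * ((rep A (QuotientGroup.mk 1))⁻¹ * 1)
    rw [mul_inv_cancel_left]
    rfl
  | cons i l ih =>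
    rw [List.map_cons, List.prod_cons, ih, enc, Multiset.map_cons, mprod_cons, cos,
      Subgroup.coe_mul]
    have : ((fl A Z (i, cos A Z l) : A) : G) =
        (rep A (Z i • cos A Z l))⁻¹ * (Z i * rep A (cos A Z l)) := rfl
    rw [this]
    simp only [mul_assoc, mul_inv_cancel_left]

/-- the step function extended by a trivial letter -/
def fo : Option (Fin k × (G ⧸ A)) → A
  | none => 1
  | some p => fl A Z p

/-- The element described by a padded multiset of letters and a coset. -/
def dec (T : ℕ) (M : Sym (Option (Fin k × (G ⧸ A))) T × (G ⧸ A)) : G :=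
  rep A M.2 * (((mprod A hA (M.1.1.map (fo A Z)) : A) : G) * ((base A : A) : G))

theorem mem_range (T T' : ℕ) (h : T' ≤ T) (w : Fin T' → Fin k) :
    (List.ofFn fun j => Z (w j)).prod ∈ Set.range (dec A Z hA T) := by
  have h1 : (List.ofFn fun j => Z (w j)) = (List.ofFn w).map Z := by
    rw [List.map_ofFn]; rfl
  rw [h1, prod_eq A Z hA]
  have hc : (enc A Z (List.ofFn w)).card = T' := by rw [enc_card, List.length_ofFn]
  have hc2 : ((enc A Z (List.ofFn w)).map some +
      Multiset.replicate (T - T') (none : Option (Fin k × (G ⧸ A)))).card = T := by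
    rw [Multiset.card_add, Multiset.card_map, Multiset.card_replicate, hc]; omega
  refine ⟨(⟨(enc A Z (List.ofFn w)).map some + Multiset.replicate (T - T') none, hc2⟩,
    cos A Z (List.ofFn w)), ?_⟩
  unfold dec
  change rep A (cos A Z (List.ofFn w)) * (((mprod A hA (((enc A Z (List.ofFn w)).map some +
    Multiset.replicate (T - T') none).map (fo A Z)) : A) : G) * ((base A : A) : G)) = _
  rw [Multiset.map_add, Multiset.map_map, Multiset.map_replicate]
  have e1 : (fo A Z ∘ some) = fl A Z := rfl
  have e2 : fo A Z none = 1 := rfl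
  rw [e1, e2, mprod_add_ones]

theorem range_card [Finite G] (T : ℕ) :
    (Set.range (dec A Z hA T)).ncard ≤ (k * A.index + T).choose T * A.index := by
  classical
  have : Fintype (G ⧸ A) := Fintype.ofFinite _
  have hidx : A.index = Fintype.card (G ⧸ A) := by
    rw [Subgroup.index_eq_card, Nat.card_eq_fintype_card]
  have h1 : (Set.range (dec A Z hA T)).ncard ≤
      Nat.card (Sym (Option (Fin k × (G ⧸ A))) T × (G ⧸ A)) := by
    rw [← Set.image_univ, ← Set.ncard_univ]
    exact Set.ncard_image_le
  refine h1.trans (le_of_eq ?_)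
  rw [Nat.card_prod, Nat.card_eq_fintype_card (α := Sym (Option (Fin k × (G ⧸ A))) T),
    Sym.card_sym_eq_choose, hidx, Nat.card_eq_fintype_card, Fintype.card_option,
    Fintype.card_prod, Fintype.card_fin]
  congr 2
  omega

end

end Pool.Agent.TH977.VA
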