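import Pool.Agent.TH977.VA.Count
import Pool.Agent.H632R3.Dih

open Finset Filter Topology

set_option linter.unusedSectionVars false

/-!
Lower bound for the mixing time on groups with an abelian subgroup of small index.
-/

namespace Pool.Agent.TH977.VA

open Pool.Agent.H632R3 Pool.Agent.H632R3.RCG

noncomputable section

theorem pointwise {G : Type} [Group G] [Fintype G] {k : ℕ} (A : Subgroup G)
    (hA : ∀ x ∈ A, ∀ y ∈ A, x * y = y * x) (Z : Fin k → G) {ε L κ ℓ : ℝ} (hε0 : 0 < ε)
    (hε1 : ε < 1) (hL : L = Real.log (Nat.card G)) (hκ : κ = k / L) (hℓ : ℓ = Real.log κ)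
    (h1 : 1 ≤ ℓ) (h2 : 4 * ℓ ≤ L) (h3 : 3 + Real.log A.index + Real.log ℓ ≤ ε / 8 * ℓ)
    {t : ℝ} (ht0 : 0 ≤ t) (ht : t ≤ (1 - ε) * (L / ℓ)) :
    1 - Real.exp (-(ε ^ 2 / 16 * (L / ℓ))) - Real.exp (-(ε / 4 * L)) ≤ tvDist Z t := by
  classical
  have hℓ0 : 0 < ℓ := by linarith
  have hL0 : 0 < L := by linarith
  have hκ0 : 0 < κ := by
    by_contra hcon
    push Not at hcon
    have hk0 : (0 : ℝ) ≤ k := Nat.cast_nonneg _
    have h4 : 0 ≤ κ := by rw [hκ]; positivity
    have h5 : κ = 0 := le_antisymm hcon h4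
    rw [h5, Real.log_zero] at hℓ
    linarith
  have hkr : (k : ℝ) = κ * L := by rw [hκ]; field_simp
  have hκ1 : 1 ≤ κ := by
    by_contra hcon
    push Not at hcon
    have := Real.log_neg hκ0 hcon
    linarith
  have hk0 : (0 : ℝ) < k := by rw [hkr]; positivity
  have hk0' : 0 < k := by exact_mod_cast hk0
  have hm0 : 0 < A.index := Nat.pos_of_ne_zero A.index_ne_zero_of_finite
  have hm : (1 : ℝ) ≤ A.index := by exact_mod_cast hm0
  set m : ℝ := (A.index : ℝ) with hmd
  set τ := L / ℓ with hτ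
  have hτ0 : 4 ≤ τ := by rw [hτ, le_div_iff₀ hℓ0]; linarith
  set T := ⌊(1 - ε / 2) * τ⌋₊ with hT
  have hT1 : (T : ℝ) ≤ (1 - ε / 2) * τ := Nat.floor_le (mul_nonneg (by linarith) (by linarith))
  have hT2 : (1 - ε / 2) * τ < T + 1 := Nat.lt_floor_add_one _
  have hT3 : τ / 4 ≤ T := by nlinarith
  have hTr : (0 : ℝ) < T := by linarith
  have hTpos : 0 < T := by exact_mod_cast hTr
  set B : Finset G := (Set.range (dec A Z hA T)).toFinset with hB
  have hBmem : ∀ T' ≤ T, ∀ w : Fin T' → Fin k, (List.ofFn fun j => Z (w j)).prod ∈ B := by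
    intro T' hT' w
    rw [hB, Set.mem_toFinset]
    exact mem_range A Z hA T T' hT' w
  have hd := dist_lower hk0' Z ht0 T B hBmem
  -- the tail
  have hlam : (0 : ℝ) ≤ ε / 4 := by positivity
  have htail := pois_tail ht0 hlam T
  have hexp : Real.exp (ε / 4) - 1 ≤ ε / 4 + (ε / 4) ^ 2 := by
    have := Real.abs_exp_sub_one_sub_id_le (x := ε / 4) (by rw [abs_of_nonneg hlam]; linarith)
    have := (abs_le.mp this).2
    linarith
  have htail2 : -(ε / 4 * ((T : ℝ) + 1)) + t * (Real.exp (ε / 4) - 1) ≤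
      -(ε ^ 2 / 16 * τ) := by
    have e1 : t * (Real.exp (ε / 4) - 1) ≤ ((1 - ε) * τ) * (ε / 4 + (ε / 4) ^ 2) := by
      refine mul_le_mul ht hexp ?_ (mul_nonneg (by linarith) (by linarith))
      have := Real.one_le_exp hlam
      linarith
    have e2 : ε / 4 * ((1 - ε / 2) * τ) ≤ ε / 4 * ((T : ℝ) + 1) :=
      mul_le_mul_of_nonneg_left hT2.le hlam
    have e3 : -(ε / 4 * ((1 - ε / 2) * τ)) + ((1 - ε) * τ) * (ε / 4 + (ε / 4) ^ 2) =
        -(ε ^ 2 / 16 * τ) - ε ^ 3 / 16 * τ := by ring
    have e4 : 0 ≤ ε ^ 3 / 16 * τ := by positivity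
    linarith
  have htail3 := Real.exp_le_exp.mpr htail2
  -- the cardinality
  have hcG : (Fintype.card G : ℝ) = Real.exp L := by
    rw [hL, Nat.card_eq_fintype_card, Real.exp_log]
    exact_mod_cast Fintype.card_pos
  have hcard : (B.card : ℝ) / (Fintype.card G : ℝ) ≤ Real.exp (-(ε / 4 * L)) := by
    rw [hcG, div_le_iff₀ (Real.exp_pos _), ← Real.exp_add]
    have e1 : (B.card : ℝ) ≤ (((k * A.index + T).choose T * A.index : ℕ) : ℝ) := by
      have : B.card = (Set.range (dec A Z hA T)).ncard := by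
        rw [hB, Set.ncard_eq_toFinset_card']
      rw [this]
      exact_mod_cast range_card A Z hA T
    rw [Nat.cast_mul] at e1
    have e2 := Dih.choose_le (K := k * A.index) hTpos
    have e3 : Real.exp 1 * (((k * A.index : ℕ) : ℝ) / T + 1) ≤
        Real.exp (ℓ + (3 + Real.log m + Real.log ℓ)) := by
      have e4 : ((k * A.index : ℕ) : ℝ) / T ≤ 4 * (m * κ * ℓ) := by
        push_cast
        rw [div_le_iff₀ hTr, hkr]
        have e5 : κ * L * m = 4 * (m * κ * ℓ) * (τ / 4) := by
          rw [hτ]; field_simp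
        rw [e5]
        exact mul_le_mul_of_nonneg_left hT3 (by positivity)
      have e5 : 1 ≤ m * κ * ℓ := by
        have : 1 ≤ m * κ := one_le_mul_of_one_le_of_one_le hm hκ1
        exact one_le_mul_of_one_le_of_one_le this h1
      have e6 : Real.exp (ℓ + (3 + Real.log m + Real.log ℓ)) = Real.exp 3 * (m * κ * ℓ) := by
        rw [Real.exp_add, Real.exp_add, Real.exp_add, Real.exp_log (by linarith),
          Real.exp_log hℓ0, hℓ, Real.exp_log hκ0]
        ring
      rw [e6]
      have e7 : Real.exp 1 * 5 ≤ Real.exp 3 := by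
        have e8 : Real.exp 3 = Real.exp 1 * Real.exp 1 ^ 2 := by
          rw [← Real.exp_nat_mul, ← Real.exp_add]; norm_num
        rw [e8]
        refine mul_le_mul_of_nonneg_left ?_ (Real.exp_pos 1).le
        have := Real.exp_one_gt_d9
        nlinarith
      calc Real.exp 1 * (((k * A.index : ℕ) : ℝ) / T + 1)
          ≤ Real.exp 1 * (4 * (m * κ * ℓ) + m * κ * ℓ) := by
            refine mul_le_mul_of_nonneg_left (by linarith) (Real.exp_pos 1).le
        _ = Real.exp 1 * 5 * (m * κ * ℓ) := by ring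
        _ ≤ _ := mul_le_mul_of_nonneg_right e7 (by linarith)
    have e8 : (((k * A.index + T).choose T : ℕ) : ℝ) ≤
        Real.exp (T * (ℓ + (3 + Real.log m + Real.log ℓ))) := by
      refine e2.trans ((pow_le_pow_left₀ (by positivity) e3 T).trans ?_)
      rw [← Real.exp_nat_mul]
    have e9 : (T : ℝ) * (ℓ + (3 + Real.log m + Real.log ℓ)) ≤ (1 - 3 * ε / 8) * L := by
      have e10 : ℓ + (3 + Real.log m + Real.log ℓ) ≤ (1 + ε / 8) * ℓ := by linarith
      have e11 : 0 ≤ ℓ + (3 + Real.log m + Real.log ℓ) := by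
        have := Real.log_nonneg hm
        have := Real.log_nonneg h1
        linarith
      calc (T : ℝ) * (ℓ + (3 + Real.log m + Real.log ℓ))
          ≤ ((1 - ε / 2) * τ) * ((1 + ε / 8) * ℓ) :=
            mul_le_mul hT1 e10 e11 (mul_nonneg (by linarith) (by linarith))
        _ = (1 - ε / 2) * (1 + ε / 8) * L := by rw [hτ]; field_simp
        _ ≤ _ := by
            refine mul_le_mul_of_nonneg_right ?_ hL0.le
            nlinarith
    have e12 : m ≤ Real.exp (ε / 8 * L) := by
      have e13 : Real.log m ≤ ε / 8 * L := by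
        have := Real.log_nonneg h1
        have e14 : ε / 8 * ℓ ≤ ε / 8 * L := mul_le_mul_of_nonneg_left (by linarith) (by positivity)
        linarith
      calc m = Real.exp (Real.log m) := (Real.exp_log (by linarith)).symm
        _ ≤ _ := Real.exp_le_exp.mpr e13
    calc (B.card : ℝ) ≤ (((k * A.index + T).choose T : ℕ) : ℝ) * m := e1
      _ ≤ Real.exp ((1 - 3 * ε / 8) * L) * Real.exp (ε / 8 * L) :=
          mul_le_mul (e8.trans (Real.exp_le_exp.mpr e9)) e12 (by linarith) (Real.exp_pos _).le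
      _ = Real.exp (-(ε / 4 * L) + L) := by rw [← Real.exp_add]; congr 1; ring
  linarith

section

variable (G : ℕ → Type) [∀ j, Group (G j)] [∀ j, Fintype (G j)] (k : ℕ → ℕ)

/-- `log |G|` -/
def LG (j : ℕ) : ℝ := Real.log (Nat.card (G j))

/-- `κ = k / log |G|` -/
def kap (j : ℕ) : ℝ := k j / LG G j

/-- `log κ` -/
def lk (j : ℕ) : ℝ := Real.log (kap G k j)

variable (hcard : Tendsto (fun j => Nat.card (G j)) atTop atTop)
  (hk : Tendsto (kap G k) atTop atTop)
  (hk2 : Tendsto (fun j => Real.log (k j) / LG G j) atTop (𝓝 0))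

include hcard in
theorem LG_tendsto : Tendsto (LG G) atTop atTop :=
  Real.tendsto_log_atTop.comp (tendsto_natCast_atTop_atTop.comp hcard)

include hk in
theorem lk_tendsto : Tendsto (lk G k) atTop atTop := Real.tendsto_log_atTop.comp hk

include hcard hk hk2 in
theorem lk_div : Tendsto (fun j => lk G k j / LG G j) atTop (𝓝 0) := by
  refine squeeze_zero' ?_ ?_ hk2
  · filter_upwards [(lk_tendsto G k hk).eventually_ge_atTop 0,
      (LG_tendsto G hcard).eventually_ge_atTop 1] with j h1 h2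
    exact div_nonneg h1 (by linarith)
  · filter_upwards [hk.eventually_ge_atTop 1, (LG_tendsto G hcard).eventually_ge_atTop 1]
      with j h1 h2
    have h3 : 0 < LG G j := by linarith
    refine div_le_div_of_nonneg_right ?_ h3.le
    unfold lk
    refine Real.log_le_log (by linarith) ?_
    unfold kap
    exact div_le_self (Nat.cast_nonneg _) h2

include hcard hk hk2 in
theorem tau_tendsto : Tendsto (fun j => LG G j / lk G k j) atTop atTop := by
  have h1 : Tendsto (fun j => (lk G k j / LG G j)⁻¹) atTop atTop := by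
    refine tendsto_inv_nhdsGT_zero.comp ?_
    rw [tendsto_nhdsWithin_iff]
    refine ⟨lk_div G k hcard hk hk2, ?_⟩
    filter_upwards [(lk_tendsto G k hk).eventually_ge_atTop 1,
      (LG_tendsto G hcard).eventually_ge_atTop 1] with j h1 h2
    have h3 : 0 < lk G k j / LG G j := div_pos (by linarith) (by linarith)
    exact h3
  refine h1.congr fun j => ?_
  rw [inv_div]

include hcard hk hk2 in
/-- The lower bound, uniformly over the generators. -/
theorem lower (A : ∀ j, Subgroup (G j)) (hA : ∀ j, ∀ x ∈ A j, ∀ y ∈ A j, x * y = y * x)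
    (hidx : Tendsto (fun j => Real.log (A j).index / lk G k j) atTop (𝓝 0))
    {ε δ : ℝ} (hε : 0 < ε) (hδ : 0 < δ) :
    ∀ᶠ j in atTop, ∀ Z : Fin (k j) → G j, ∀ t : ℝ, 0 ≤ t →
      t ≤ (1 - ε) * (LG G j / lk G k j) → 1 - δ ≤ tvDist Z t := by
  wlog hε1 : ε < 1 generalizing ε
  · push Not at hε1
    filter_upwards [this (ε := 1 / 2) (by norm_num) (by norm_num),
      (tau_tendsto G k hcard hk hk2).eventually_ge_atTop 0] with j h1 h2 Z t ht0 ht
    refine h1 Z t ht0 (ht.trans ?_)
    nlinarith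
  have hl := lk_tendsto G k hk
  have hτ := tau_tendsto G k hcard hk hk2
  have hloglog : Tendsto (fun j => Real.log (lk G k j) / lk G k j) atTop (𝓝 0) := by
    have : Tendsto (fun x : ℝ => Real.log x / x) atTop (𝓝 0) := by
      have := Real.isLittleO_log_id_atTop.tendsto_div_nhds_zero
      simpa using this
    exact this.comp hl
  have hconst : Tendsto (fun j => 3 / lk G k j) atTop (𝓝 0) := tendsto_const_nhds.div_atTop hl
  have hsum := (hconst.add hidx).add hloglog
  rw [add_zero, add_zero] at hsum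
  have he1 : Tendsto (fun j => Real.exp (-(ε ^ 2 / 16 * (LG G j / lk G k j)))) atTop (𝓝 0) :=
    Real.tendsto_exp_neg_atTop_nhds_zero.comp (hτ.const_mul_atTop (by positivity))
  have he2 : Tendsto (fun j => Real.exp (-(ε / 4 * LG G j))) atTop (𝓝 0) :=
    Real.tendsto_exp_neg_atTop_nhds_zero.comp
      ((LG_tendsto G hcard).const_mul_atTop (by positivity))
  filter_upwards [hl.eventually_ge_atTop 1, hτ.eventually_ge_atTop 4,
    hsum.eventually (gt_mem_nhds (show (0 : ℝ) < ε / 8 by positivity)),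
    he1.eventually_lt_const (half_pos hδ), he2.eventually_lt_const (half_pos hδ)]
    with j h1 h2 h3 h4 h5 Z t ht0 ht
  have hl0 : 0 < lk G k j := by linarith
  have h6 : 4 * lk G k j ≤ LG G j := by
    rw [le_div_iff₀ hl0] at h2
    exact h2
  have h7 : 3 + Real.log (A j).index + Real.log (lk G k j) ≤ ε / 8 * lk G k j := by
    rw [← add_div, ← add_div, div_lt_iff₀ hl0] at h3
    exact h3.le
  have := pointwise (A j) (hA j) Z hε hε1 rfl rfl rfl h1 h6 h7 ht0 ht
  change 1 - Real.exp (-(ε ^ 2 / 16 * (LG G j / lk G k j))) -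
    Real.exp (-(ε / 4 * LG G j)) ≤ tvDist Z t at this
  linarith

end

end

end Pool.Agent.TH977.VA
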