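import Pool.Agent.TH977.VA.Coll

open Finset Filter Topology

set_option linter.unusedSectionVars false

/-!
Second moment of the law of the walk for random generators.
-/

namespace Pool.Agent.TH977.VA

open Pool.Agent.H632R3 Pool.Agent.H632R3.RCG

noncomputable section

variable {G : Type} [Group G] [Fintype G] {k : ℕ}

/-! ### words with a letter occurring once -/

theorem map_prod_congr {Z Z' : Fin k → G} {l : List (Fin k)} (h : ∀ j ∈ l, Z j = Z' j) :
    (l.map Z).prod = (l.map Z').prod := by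
  rw [List.map_congr_left h]

theorem inj_of_single {i : Fin k} {l l' : List (Fin k)} (h1 : l.count i = 1)
    (h2 : i ∉ l') {Z Z' : Fin k → G} (hZ : ∀ j, j ≠ i → Z j = Z' j)
    (e1 : (l.map Z).prod = (l'.map Z).prod) (e2 : (l.map Z').prod = (l'.map Z').prod) :
    Z = Z' := by
  have hi : i ∈ l := by
    rw [← List.one_le_count_iff, h1]
  obtain ⟨s, t, hst⟩ := List.append_of_mem hi
  rw [hst, List.count_append, List.count_cons_self] at h1
  have hs : i ∉ s := by
    rw [← List.count_eq_zero]; omega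
  have ht : i ∉ t := by
    rw [← List.count_eq_zero]; omega
  have c1 : (s.map Z).prod = (s.map Z').prod :=
    map_prod_congr fun j hj => hZ j fun e => hs (e ▸ hj)
  have c2 : (t.map Z).prod = (t.map Z').prod :=
    map_prod_congr fun j hj => hZ j fun e => ht (e ▸ hj)
  have c3 : (l'.map Z).prod = (l'.map Z').prod :=
    map_prod_congr fun j hj => hZ j fun e => h2 (e ▸ hj)
  rw [hst, List.map_append, List.prod_append, List.map_cons, List.prod_cons] at e1 e2
  rw [c1, c2, c3, ← e2] at e1
  have e3 := mul_left_cancel e1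
  have e4 := mul_right_cancel e3
  funext j
  by_cases hj : j = i
  · rw [hj]; exact e4
  · exact hZ j hj

theorem card_eq_le {i : Fin k} {l l' : List (Fin k)} (h1 : l.count i = 1) (h2 : i ∉ l') :
    Nat.card {Z : Fin k → G // (l.map Z).prod = (l'.map Z).prod} * Fintype.card G ≤
      Fintype.card G ^ k := by
  classical
  have hk : 0 < k := i.pos
  have h3 : Nat.card {Z : Fin k → G // (l.map Z).prod = (l'.map Z).prod} ≤
      Nat.card ({j : Fin k // j ≠ i} → G) := by
    refine Nat.card_le_card_of_injective (fun Z j => Z.1 j) ?_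
    intro Z Z' h
    apply Subtype.ext
    refine inj_of_single h1 h2 (fun j hj => ?_) Z.2 Z'.2
    exact congrFun h ⟨j, hj⟩
  have h4 : Nat.card ({j : Fin k // j ≠ i} → G) = Fintype.card G ^ (k - 1) := by
    rw [Nat.card_eq_fintype_card, Fintype.card_fun]
    congr 1
    rw [Fintype.card_subtype_compl, Fintype.card_fin]
    simp
  calc _ ≤ Fintype.card G ^ (k - 1) * Fintype.card G := Nat.mul_le_mul_right _ (h3.trans h4.le)
    _ = Fintype.card G ^ k := by
        rw [← pow_succ]; congr 1; omega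

/-- a letter occurs exactly once in the pair of words -/
def Single {T : ℕ} (w w' : Fin T → Fin k) : Prop :=
  ∃ i, (List.ofFn w).count i + (List.ofFn w').count i = 1

theorem card_single {T : ℕ} {w w' : Fin T → Fin k} (h : Single w w') :
    Nat.card {Z : Fin k → G // pw Z w = pw Z w'} * Fintype.card G ≤ Fintype.card G ^ k := by
  obtain ⟨i, hi⟩ := h
  simp only [pw_eq]
  rcases Nat.add_eq_one_iff.mp hi with ⟨h1, h2⟩ | ⟨h1, h2⟩
  · have h3 := card_eq_le (G := G) h2 (List.count_eq_zero.mp h1)
    refine le_trans (le_of_eq ?_) h3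
    congr 1
    refine Nat.card_congr (Equiv.subtypeEquivRight fun Z => ?_)
    exact eq_comm
  · exact card_eq_le h1 (List.count_eq_zero.mp h2)

theorem card_any {T : ℕ} (w w' : Fin T → Fin k) :
    Nat.card {Z : Fin k → G // pw Z w = pw Z w'} ≤ Fintype.card G ^ k := by
  have h1 : Nat.card {Z : Fin k → G // pw Z w = pw Z w'} ≤ Nat.card (Fin k → G) :=
    Nat.card_le_card_of_injective _ Subtype.val_injective
  refine h1.trans (le_of_eq ?_)
  rw [Nat.card_eq_fintype_card, Fintype.card_fun, Fintype.card_fin]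

/-- the letters of a pair without a single letter -/
theorem card_letters {T : ℕ} {w w' : Fin T → Fin k} (h : ¬ Single w w') :
    (univ.image w ∪ univ.image w').card ≤ T := by
  classical
  unfold Single at h
  push Not at h
  have h1 : ∀ i ∈ univ.image w ∪ univ.image w',
      2 ≤ (List.ofFn w).count i + (List.ofFn w').count i := by
    intro i hi
    have h2 := h i
    have h3 : 1 ≤ (List.ofFn w).count i + (List.ofFn w').count i := by
      rcases Finset.mem_union.mp hi with hi | hi
      · obtain ⟨j, _, hj⟩ := Finset.mem_image.mp hi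
        have : 0 < (List.ofFn w).count i := List.count_pos_iff.mpr (by
          rw [List.mem_ofFn]; exact ⟨j, hj⟩)
        omega
      · obtain ⟨j, _, hj⟩ := Finset.mem_image.mp hi
        have : 0 < (List.ofFn w').count i := List.count_pos_iff.mpr (by
          rw [List.mem_ofFn]; exact ⟨j, hj⟩)
        omega
    omega
  have h2 : ∑ i, (List.ofFn w).count i = T := by
    have := List.sum_toFinset_count_eq_length (List.ofFn w)
    rw [List.length_ofFn] at this
    refine Eq.trans ?_ this
    symm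
    refine Finset.sum_subset (Finset.subset_univ _) fun i _ hi => ?_
    rw [List.mem_toFinset] at hi
    exact List.count_eq_zero.mpr hi
  have h3 : ∑ i, (List.ofFn w').count i = T := by
    have := List.sum_toFinset_count_eq_length (List.ofFn w')
    rw [List.length_ofFn] at this
    refine Eq.trans ?_ this
    symm
    refine Finset.sum_subset (Finset.subset_univ _) fun i _ hi => ?_
    rw [List.mem_toFinset] at hi
    exact List.count_eq_zero.mpr hi
  have h4 : (univ.image w ∪ univ.image w').card * 2 ≤ 2 * T := by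
    calc (univ.image w ∪ univ.image w').card * 2 = ∑ _i ∈ univ.image w ∪ univ.image w', 2 := by
          rw [Finset.sum_const, smul_eq_mul]
      _ ≤ ∑ i ∈ univ.image w ∪ univ.image w',
          ((List.ofFn w).count i + (List.ofFn w').count i) := Finset.sum_le_sum h1
      _ ≤ ∑ i, ((List.ofFn w).count i + (List.ofFn w').count i) :=
          Finset.sum_le_sum_of_subset (Finset.subset_univ _)
      _ = 2 * T := by rw [Finset.sum_add_distrib, h2, h3]; ring
  omega

open Classical in
/-- the number of pairs without a single letter -/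
theorem card_nosingle {T : ℕ} (hT : T ≤ k) :
    (univ.filter fun p : (Fin T → Fin k) × (Fin T → Fin k) => ¬ Single p.1 p.2).card ≤
      k.choose T * (T ^ T * T ^ T) := by
  have hsub : (univ.filter fun p : (Fin T → Fin k) × (Fin T → Fin k) => ¬ Single p.1 p.2) ⊆
      (powersetCard T (univ : Finset (Fin k))).biUnion fun S =>
        (Fintype.piFinset fun _ : Fin T => S) ×ˢ (Fintype.piFinset fun _ : Fin T => S) := by
    intro p hp
    have h1 := card_letters (Finset.mem_filter.mp hp).2
    obtain ⟨S, hS1, hS2⟩ := Finset.exists_superset_card_eq h1 (by rwa [Fintype.card_fin])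
    rw [Finset.mem_biUnion]
    refine ⟨S, Finset.mem_powersetCard.mpr ⟨Finset.subset_univ _, hS2⟩, ?_⟩
    rw [Finset.mem_product, Fintype.mem_piFinset, Fintype.mem_piFinset]
    constructor
    · intro j
      exact hS1 (Finset.mem_union_left _ (Finset.mem_image_of_mem _ (Finset.mem_univ j)))
    · intro j
      exact hS1 (Finset.mem_union_right _ (Finset.mem_image_of_mem _ (Finset.mem_univ j)))
  refine (Finset.card_le_card hsub).trans (Finset.card_biUnion_le.trans ?_)
  calc ∑ S ∈ powersetCard T (univ : Finset (Fin k)),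
        ((Fintype.piFinset fun _ : Fin T => S) ×ˢ (Fintype.piFinset fun _ : Fin T => S)).card
      ≤ ∑ _S ∈ powersetCard T (univ : Finset (Fin k)), (T ^ T * T ^ T) := by
        refine Finset.sum_le_sum fun S hS => ?_
        rw [Finset.card_product, Fintype.card_piFinset]
        simp only [Finset.prod_const, Finset.card_univ, Fintype.card_fin,
          (Finset.mem_powersetCard.mp hS).2]
        exact le_rfl
    _ = k.choose T * (T ^ T * T ^ T) := by
        rw [Finset.sum_const, Finset.card_powersetCard, Finset.card_univ, Fintype.card_fin,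
          smul_eq_mul]

/-! ### the second moment -/

theorem sum_sq_eq (hk : 0 < k) (Z : Fin k → G) (T : ℕ) :
    ∑ g, stepLaw Z T g ^ 2 =
      (∑ p : (Fin T → Fin k) × (Fin T → Fin k), by
        classical exact (if pw Z p.1 = pw Z p.2 then (1 : ℝ) else 0)) / ((k : ℝ) ^ T * (k : ℝ) ^ T) := by
  classical
  have h1 : ∀ g, stepLaw Z T g = (∑ w : Fin T → Fin k, if pw Z w = g then (1 : ℝ) else 0) /
      (k : ℝ) ^ T := by
    intro g
    unfold stepLaw
    congr 1
    rw [Finset.sum_boole]
    rfl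
  have h2 : ∀ g, stepLaw Z T g ^ 2 = (∑ p : (Fin T → Fin k) × (Fin T → Fin k),
      (if pw Z p.1 = g then (1 : ℝ) else 0) * (if pw Z p.2 = g then (1 : ℝ) else 0)) /
      ((k : ℝ) ^ T * (k : ℝ) ^ T) := by
    intro g
    rw [h1, div_pow, sq, sq, Finset.sum_mul_sum, Fintype.sum_prod_type]
  simp only [h2]
  rw [← Finset.sum_div, Finset.sum_comm]
  congr 1
  refine Finset.sum_congr rfl fun p _ => ?_
  rw [Finset.sum_eq_single (pw Z p.2)]
  · simp
  · intro g _ hg
    rw [if_neg (fun e : pw Z p.2 = g => hg e.symm), mul_zero]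
  · intro h; exact absurd (Finset.mem_univ _) h

/-- the collision bound -/
def rho (k T : ℕ) : ℝ := (k.choose T : ℝ) * ((T : ℝ) ^ T * (T : ℝ) ^ T) / ((k : ℝ) ^ T * (k : ℝ) ^ T)

theorem sum_Z_sq (hk : 0 < k) {T : ℕ} (hT : T ≤ k) :
    ∑ Z : Fin k → G, ∑ g, stepLaw Z T g ^ 2 ≤
      (Fintype.card G : ℝ) ^ k * (1 / (Fintype.card G : ℝ) + rho k T) := by
  classical
  have hG := card_pos' (G := G)
  have hk' : (0 : ℝ) < k := by exact_mod_cast hk
  simp only [sum_sq_eq hk]
  rw [← Finset.sum_div, Finset.sum_comm, div_le_iff₀ (by positivity)]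
  have h1 : ∀ p : (Fin T → Fin k) × (Fin T → Fin k),
      ∑ Z : Fin k → G, (if pw Z p.1 = pw Z p.2 then (1 : ℝ) else 0) ≤
        (Fintype.card G : ℝ) ^ k * (1 / (Fintype.card G : ℝ)) +
          (if ¬ Single p.1 p.2 then (Fintype.card G : ℝ) ^ k else 0) := by
    intro p
    have h2 : ∑ Z : Fin k → G, (if pw Z p.1 = pw Z p.2 then (1 : ℝ) else 0) =
        (Nat.card {Z : Fin k → G // pw Z p.1 = pw Z p.2} : ℝ) := by
      rw [Finset.sum_boole, Nat.card_eq_fintype_card, Fintype.card_subtype]
    rw [h2]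
    by_cases h3 : Single p.1 p.2
    · rw [if_neg (not_not.mpr h3), add_zero, mul_one_div, le_div_iff₀ hG]
      exact_mod_cast card_single (G := G) h3
    · rw [if_pos h3]
      have h4 : (Nat.card {Z : Fin k → G // pw Z p.1 = pw Z p.2} : ℝ) ≤
          (Fintype.card G : ℝ) ^ k := by exact_mod_cast card_any (G := G) p.1 p.2
      have h5 : 0 ≤ (Fintype.card G : ℝ) ^ k * (1 / (Fintype.card G : ℝ)) := by positivity
      linarith
  have h6 : ∑ p : (Fin T → Fin k) × (Fin T → Fin k),
      (if ¬ Single p.1 p.2 then (Fintype.card G : ℝ) ^ k else 0) ≤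
      ((k.choose T : ℝ) * ((T : ℝ) ^ T * (T : ℝ) ^ T)) * (Fintype.card G : ℝ) ^ k := by
    rw [← Finset.sum_filter, Finset.sum_const, nsmul_eq_mul]
    refine mul_le_mul_of_nonneg_right ?_ (by positivity)
    exact_mod_cast card_nosingle hT
  calc _ ≤ ∑ p : (Fin T → Fin k) × (Fin T → Fin k),
        ((Fintype.card G : ℝ) ^ k * (1 / (Fintype.card G : ℝ)) +
          (if ¬ Single p.1 p.2 then (Fintype.card G : ℝ) ^ k else 0)) := by
        refine Finset.sum_le_sum fun p _ => ?_
        exact h1 p
    _ ≤ ((k : ℝ) ^ T * (k : ℝ) ^ T) * ((Fintype.card G : ℝ) ^ k * (1 / (Fintype.card G : ℝ))) +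
        ((k.choose T : ℝ) * ((T : ℝ) ^ T * (T : ℝ) ^ T)) * (Fintype.card G : ℝ) ^ k := by
        rw [Finset.sum_add_distrib, Finset.sum_const, nsmul_eq_mul, Finset.card_univ,
          Fintype.card_prod, Fintype.card_fun, Fintype.card_fin, Fintype.card_fin]
        push_cast
        linarith
    _ = _ := by
        unfold rho
        field_simp

theorem sum_Z_dT (hk : 0 < k) {T : ℕ} (hT : T ≤ k) :
    ∑ Z : Fin k → G, dT Z T ^ 2 ≤ (Fintype.card G : ℝ) ^ k * ((Fintype.card G : ℝ) * rho k T / 4) := by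
  have hG := card_pos' (G := G)
  have h1 : ∀ Z : Fin k → G, dT Z T ^ 2 ≤ (Fintype.card G : ℝ) / 4 *
      (∑ g, stepLaw Z T g ^ 2 - 1 / (Fintype.card G : ℝ)) := by
    intro Z
    unfold dT
    have h2 := sq_sum_le_card_mul_sum_sq (s := (univ : Finset G))
      (f := fun g => |stepLaw Z T g - 1 / (Fintype.card G : ℝ)|)
    have h3 : ∑ g, |stepLaw Z T g - 1 / (Fintype.card G : ℝ)| ^ 2 =
        ∑ g, stepLaw Z T g ^ 2 - 1 / (Fintype.card G : ℝ) := by
      have h4 : ∀ g, |stepLaw Z T g - 1 / (Fintype.card G : ℝ)| ^ 2 = stepLaw Z T g ^ 2 -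
          2 * (1 / (Fintype.card G : ℝ)) * stepLaw Z T g + (1 / (Fintype.card G : ℝ)) ^ 2 := by
        intro g; rw [sq_abs]; ring
      simp only [h4]
      rw [Finset.sum_add_distrib, Finset.sum_sub_distrib, ← Finset.mul_sum, sum_stepLaw hk,
        Finset.sum_const, Finset.card_univ, nsmul_eq_mul]
      field_simp
      ring
    rw [h3, Finset.card_univ] at h2
    rw [mul_pow]
    linarith
  calc ∑ Z : Fin k → G, dT Z T ^ 2 ≤ ∑ Z : Fin k → G, (Fintype.card G : ℝ) / 4 *
        (∑ g, stepLaw Z T g ^ 2 - 1 / (Fintype.card G : ℝ)) := Finset.sum_le_sum fun Z _ => h1 Z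
    _ = (Fintype.card G : ℝ) / 4 * (∑ Z : Fin k → G, ∑ g, stepLaw Z T g ^ 2 -
        (Fintype.card G : ℝ) ^ k * (1 / (Fintype.card G : ℝ))) := by
        rw [← Finset.mul_sum, Finset.sum_sub_distrib, Finset.sum_const, Finset.card_univ,
          Fintype.card_fun, Fintype.card_fin, nsmul_eq_mul]
        push_cast
        ring
    _ ≤ (Fintype.card G : ℝ) / 4 * ((Fintype.card G : ℝ) ^ k * rho k T) := by
        refine mul_le_mul_of_nonneg_left ?_ (by positivity)
        have := sum_Z_sq (G := G) hk hT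
        linarith
    _ = _ := by ring

theorem prob_dT (hk : 0 < k) {T : ℕ} (hT : T ≤ k) {η : ℝ} (hη : 0 < η) :
    1 - (Fintype.card G : ℝ) * rho k T / (4 * η ^ 2) ≤
      prob G k (fun Z => dT Z T ≤ η) := by
  classical
  have hG := card_pos' (G := G)
  have hcard : (Nat.card (Fin k → G) : ℝ) = (Fintype.card G : ℝ) ^ k := by
    rw [Nat.card_eq_fintype_card, Fintype.card_fun, Fintype.card_fin]
    push_cast
    rfl
  unfold prob
  rw [hcard, le_div_iff₀ (by positivity)]
  have h1 : (Nat.card {Z : Fin k → G // dT Z T ≤ η} : ℝ) =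
      ∑ Z : Fin k → G, (if dT Z T ≤ η then (1 : ℝ) else 0) := by
    rw [Finset.sum_boole, Nat.card_eq_fintype_card, Fintype.card_subtype]
  rw [h1]
  have h2 : ∀ Z : Fin k → G, 1 - dT Z T ^ 2 / η ^ 2 ≤ (if dT Z T ≤ η then (1 : ℝ) else 0) := by
    intro Z
    split
    · have : 0 ≤ dT Z T ^ 2 / η ^ 2 := by positivity
      linarith
    · rename_i h
      push Not at h
      have : 1 ≤ dT Z T ^ 2 / η ^ 2 := by
        rw [le_div_iff₀ (by positivity), one_mul]
        exact pow_le_pow_left₀ hη.le h.le 2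
      linarith
  have h3 : ∑ Z : Fin k → G, (1 - dT Z T ^ 2 / η ^ 2) ≤
      ∑ Z : Fin k → G, (if dT Z T ≤ η then (1 : ℝ) else 0) := Finset.sum_le_sum fun Z _ => h2 Z
  rw [Finset.sum_sub_distrib, ← Finset.sum_div, Finset.sum_const, Finset.card_univ,
    Fintype.card_fun, Fintype.card_fin, nsmul_eq_mul, mul_one] at h3
  refine le_trans ?_ h3
  push_cast
  have h4 := div_le_div_of_nonneg_right (sum_Z_dT (G := G) hk hT) (sq_nonneg η)
  have e : (1 - (Fintype.card G : ℝ) * rho k T / (4 * η ^ 2)) * (Fintype.card G : ℝ) ^ k =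
      (Fintype.card G : ℝ) ^ k -
        (Fintype.card G : ℝ) ^ k * ((Fintype.card G : ℝ) * rho k T / 4) / η ^ 2 := by
    field_simp
  rw [e]
  linarith

theorem rho_le {k T : ℕ} (hk : 0 < k) (hT : 0 < T) :
    rho k T ≤ (Real.exp 1 * T / k) ^ T := by
  have hk' : (0 : ℝ) < k := by exact_mod_cast hk
  have hT' : (0 : ℝ) < T := by exact_mod_cast hT
  have hf : (0 : ℝ) < (T.factorial : ℝ) := by exact_mod_cast T.factorial_pos
  have h1 : ((k.choose T : ℕ) : ℝ) ≤ (k : ℝ) ^ T / (T.factorial : ℝ) := Nat.choose_le_pow_div T k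
  have h2 := Real.pow_div_factorial_le_exp (x := (T : ℝ)) hT'.le T
  unfold rho
  rw [div_le_iff₀ (by positivity)]
  calc ((k.choose T : ℕ) : ℝ) * ((T : ℝ) ^ T * (T : ℝ) ^ T)
      ≤ (k : ℝ) ^ T / (T.factorial : ℝ) * ((T : ℝ) ^ T * (T : ℝ) ^ T) :=
        mul_le_mul_of_nonneg_right h1 (by positivity)
    _ = (k : ℝ) ^ T * (T : ℝ) ^ T * ((T : ℝ) ^ T / (T.factorial : ℝ)) := by ring
    _ ≤ (k : ℝ) ^ T * (T : ℝ) ^ T * Real.exp T := mul_le_mul_of_nonneg_left h2 (by positivity)
    _ = _ := by
        rw [div_pow, mul_pow, ← Real.exp_nat_mul, mul_one]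
        field_simp

end

end Pool.Agent.TH977.VA
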