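import Pool.Agent.TH977.VA.Lower

open Finset Filter Topology

set_option linter.unusedSectionVars false

/-!
Upper bound for `t_*`.
-/

namespace Pool.Agent.TH977.VA

open Pool.Agent.H632R3 Pool.Agent.H632R3.RCG

noncomputable section

theorem entropy_ge {s : ℝ} (hs : 0 < s) :
    Real.exp (-s) * s * (-Real.log s) ≤ poissonEntropy s := by
  have h1 := (entropy_summable hs.le).le_tsum 1 (fun j _ => by
    have hp : 0 ≤ Real.exp (-s) * s ^ j / (j.factorial : ℝ) := by positivity
    refine Real.negMulLog_nonneg hp ((prob_le hs.le j).trans ?_)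
    rw [Real.exp_le_one_iff, neg_nonpos]
    exact le_min hs.le zero_le_one)
  refine le_trans ?_ h1
  simp only [pow_one, Nat.factorial_one, Nat.cast_one, div_one]
  rw [Real.negMulLog, Real.log_mul (Real.exp_pos _).ne' hs.ne', Real.log_exp]
  have h2 : 0 ≤ Real.exp (-s) * s * s := by positivity
  nlinarith

theorem t0_le' {k N : ℕ} {c L κ ℓ : ℝ} (hc0 : 0 < c) (hc1 : c < 1) (hL : 0 < L)
    (hN : Real.log N ≤ (1 - c) * L) (hκ : κ = k / L) (hℓ : ℓ = Real.log κ) (h1 : 1 ≤ ℓ)
    (h2 : 2 / c ≤ κ) : t0 k N ≤ (1 - c / 2) * (L / ℓ) := by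
  have hℓ0 : 0 < ℓ := by linarith
  have hκ0 : 0 < κ := lt_of_lt_of_le (by positivity) h2
  have hkr : (k : ℝ) = κ * L := by rw [hκ]; field_simp
  have hk0 : (0 : ℝ) < k := by rw [hkr]; positivity
  have hc2 : 0 < 1 - c / 2 := by linarith
  refine csInf_le ⟨0, fun t ht => ht.1⟩ ⟨by positivity, ?_⟩
  set t := (1 - c / 2) * (L / ℓ) with ht
  have ht0 : 0 < t := by positivity
  set s := t / k with hs
  have hs0 : 0 < s := by positivity
  have hs1 : s = (1 - c / 2) / (κ * ℓ) := by
    rw [hs, ht, hkr]; field_simp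
  have hs2 : s ≤ 1 / κ := by
    rw [hs1, div_le_div_iff₀ (by positivity) hκ0]
    nlinarith
  have hs3 : s ≤ c / 2 := by
    refine hs2.trans ?_
    rw [div_le_iff₀ hκ0]
    rw [div_le_iff₀ hc0] at h2
    linarith
  have hlog : ℓ ≤ -Real.log s := by
    rw [hℓ, ← Real.log_inv]
    refine Real.log_le_log hκ0 ?_
    rw [le_inv_comm₀ hκ0 hs0, ← one_div]
    exact hs2
  have h3 := entropy_ge hs0
  have h4 : (1 - c / 2) * s * ℓ ≤ Real.exp (-s) * s * (-Real.log s) := by
    have h5 : 1 - c / 2 ≤ Real.exp (-s) := by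
      have := Real.add_one_le_exp (-s)
      linarith
    have h6 : (1 - c / 2) * s ≤ Real.exp (-s) * s := mul_le_mul_of_nonneg_right h5 hs0.le
    exact mul_le_mul h6 hlog hℓ0.le (by positivity)
  have h7 : (k : ℝ) * ((1 - c / 2) * s * ℓ) = (1 - c / 2) * (1 - c / 2) * L := by
    rw [hs, ht]; field_simp
  calc Real.log N ≤ (1 - c) * L := hN
    _ ≤ (1 - c / 2) * (1 - c / 2) * L := by
        refine mul_le_mul_of_nonneg_right ?_ hL.le
        nlinarith [sq_nonneg c]
    _ = (k : ℝ) * ((1 - c / 2) * s * ℓ) := h7.symm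
    _ ≤ _ := mul_le_mul_of_nonneg_left (h4.trans h3) hk0.le

section

variable (G : ℕ → Type) [∀ j, Group (G j)] [∀ j, Fintype (G j)] (k : ℕ → ℕ)
  (hcard : Tendsto (fun j => Nat.card (G j)) atTop atTop)
  (hk : Tendsto (kap G k) atTop atTop)

include hcard hk in
/-- `t_*` is smaller than `log|G| / log κ` by a constant factor. -/
theorem tStar_le {C c : ℝ} (hC : 0 < C) (hc : 0 < c)
    (hkC : ∀ᶠ j in atTop, (k j : ℝ) ≤ LG G j ^ C)
    (hab : ∀ᶠ j in atTop, Real.log (Nat.card (Abelianization (G j))) ≤ (1 - c) * LG G j) :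
    ∃ ρ : ℝ, 0 < ρ ∧ ρ < 1 ∧ ∀ᶠ j in atTop, tStar (G j) (k j) ≤ ρ * (LG G j / lk G k j) := by
  set c' := min c (1 / 2) with hc'
  have hc0 : 0 < c' := lt_min hc (by norm_num)
  have hc1 : c' < 1 := lt_of_le_of_lt (min_le_right _ _) (by norm_num)
  have hlk := lk_tendsto G k hk
  have hLG := LG_tendsto G hcard
  -- first bound
  have hA : ∀ᶠ j in atTop, t0 (k j) (Nat.card (Abelianization (G j))) ≤
      (1 - c' / 2) * (LG G j / lk G k j) := by
    filter_upwards [hab, hlk.eventually_ge_atTop 1, hk.eventually_ge_atTop (2 / c'),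
      hLG.eventually_ge_atTop 1] with j h1 h2 h3 h4
    refine t0_le' (κ := kap G k j) hc0 hc1 (by linarith) (h1.trans ?_) rfl rfl h2 h3
    refine mul_le_mul_of_nonneg_right ?_ (by linarith)
    have := min_le_left c (1 / 2)
    linarith
  -- second bound
  have hC1 : 1 < C ∧ ∀ᶠ j in atTop, Real.logb (k j) (Nat.card (G j)) ≤
      (1 - 1 / C) * (LG G j / lk G k j) := by
    have hev : ∀ᶠ j in atTop, lk G k j ≤ (1 - 1 / C) * Real.log (k j) := by
      filter_upwards [hkC, hlk.eventually_ge_atTop 1, hLG.eventually_ge_atTop 1,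
        hk.eventually_ge_atTop 1] with j h1 h2 h3 h4
      have hL0 : 0 < LG G j := by linarith
      have hkr : (k j : ℝ) = kap G k j * LG G j := by unfold kap; field_simp
      have hk0 : (0 : ℝ) < k j := by rw [hkr]; positivity
      have e1 : Real.log (k j) = lk G k j + Real.log (LG G j) := by
        rw [hkr, Real.log_mul (by linarith) hL0.ne']
        rfl
      have e2 : Real.log (k j) ≤ C * Real.log (LG G j) := by
        have := Real.log_le_log hk0 h1
        rwa [Real.log_rpow hL0] at this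
      have e3 : Real.log (k j) / C ≤ Real.log (LG G j) := by
        rw [div_le_iff₀ hC]; linarith
      have e4 : (1 - 1 / C) * Real.log (k j) = Real.log (k j) - Real.log (k j) / C := by
        field_simp
      rw [e4]
      linarith
    have hlogk : ∀ᶠ j in atTop, 0 < Real.log (k j) := by
      filter_upwards [hlk.eventually_ge_atTop 1, hLG.eventually_ge_atTop 1,
        hk.eventually_ge_atTop 1] with j h2 h3 h4
      have hL0 : 0 < LG G j := by linarith
      have hkr : (k j : ℝ) = kap G k j * LG G j := by unfold kap; field_simp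
      have e1 : Real.log (k j) = lk G k j + Real.log (LG G j) := by
        rw [hkr, Real.log_mul (by linarith) hL0.ne']
        rfl
      have := Real.log_nonneg h3
      linarith
    constructor
    · obtain ⟨j, h1, h2, h3⟩ := (hev.and (hlogk.and (hlk.eventually_ge_atTop 1))).exists
      by_contra hcon
      push Not at hcon
      have h4 : 1 ≤ 1 / C := by rw [le_div_iff₀ hC]; linarith
      nlinarith
    · filter_upwards [hev, hlogk, hlk.eventually_ge_atTop 1, hLG.eventually_ge_atTop 1]
        with j h1 h2 h3 h4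
      have hl0 : 0 < lk G k j := by linarith
      rw [Real.logb]
      change LG G j / Real.log (k j) ≤ _
      rw [div_le_iff₀ h2]
      calc LG G j = (LG G j / lk G k j) * lk G k j := by field_simp
        _ ≤ (LG G j / lk G k j) * ((1 - 1 / C) * Real.log (k j)) :=
            mul_le_mul_of_nonneg_left h1 (div_nonneg (by linarith) hl0.le)
        _ = _ := by ring
  obtain ⟨hC1, hB⟩ := hC1
  have hr1 : 1 - 1 / C < 1 := by
    have : 0 < 1 / C := by positivity
    linarith
  refine ⟨max (1 - c' / 2) (1 - 1 / C), lt_max_of_lt_left (by linarith),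
    max_lt (by linarith) hr1, ?_⟩
  filter_upwards [hA, hB, hlk.eventually_ge_atTop 1, hLG.eventually_ge_atTop 1] with j h1 h2 h3 h4
  have h5 : 0 ≤ LG G j / lk G k j := div_nonneg (by linarith) (by linarith)
  unfold tStar
  refine max_le (h1.trans ?_) (h2.trans ?_)
  · exact mul_le_mul_of_nonneg_right (le_max_left _ _) h5
  · exact mul_le_mul_of_nonneg_right (le_max_right _ _) h5

theorem tStar_nonneg (j : ℕ) : 0 ≤ tStar (G j) (k j) := le_max_of_le_left (t0_nonneg _ _)

end

end

end Pool.Agent.TH977.VA
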