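import Pool.Agent.TH977.VA.Second
import Pool.Agent.TH977.VA.TStar

open Finset Filter Topology

set_option linter.unusedSectionVars false

/-!
Upper bound for the mixing time for random generators in any group, and cutoff for groups with an
abelian subgroup of small index.
-/

namespace Pool.Agent.TH977.VA

open Pool.Agent.H632R3 Pool.Agent.H632R3.RCG

noncomputable section

theorem prob_mono {G : Type} [Fintype G] {k : ℕ} {p p' : (Fin k → G) → Prop}
    (h : ∀ Z, p Z → p' Z) : prob G k p ≤ prob G k p' := by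
  unfold prob
  refine div_le_div_of_nonneg_right ?_ (Nat.cast_nonneg _)
  have : Nat.card {Z // p Z} ≤ Nat.card {Z // p' Z} :=
    Nat.card_le_card_of_injective (fun Z => ⟨Z.1, h Z.1 Z.2⟩) fun Z Z' e => by
      apply Subtype.ext
      exact congrArg (fun x : {Z // p' Z} => x.1) e
  exact_mod_cast this

theorem prob_le_one {G : Type} [Fintype G] {k : ℕ} (p : (Fin k → G) → Prop) :
    prob G k p ≤ 1 := by
  unfold prob
  refine div_le_one_of_le₀ ?_ (Nat.cast_nonneg _)
  have : Nat.card {Z // p Z} ≤ Nat.card (Fin k → G) :=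
    Nat.card_le_card_of_injective _ Subtype.val_injective
  exact_mod_cast this

theorem prob_eq_one {G : Type} [Fintype G] [Nonempty G] {k : ℕ} {p : (Fin k → G) → Prop}
    (h : ∀ Z, p Z) : prob G k p = 1 := by
  unfold prob
  have e : Nat.card {Z // p Z} = Nat.card (Fin k → G) :=
    Nat.card_congr (Equiv.subtypeUnivEquiv h)
  rw [e]
  refine div_self ?_
  have : 0 < Nat.card (Fin k → G) := Nat.card_pos
  exact_mod_cast this.ne'

theorem upper_pointwise {G : Type} [Group G] [Fintype G] {k : ℕ} {ε δ L κ ℓ : ℝ} (hε0 : 0 < ε)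
    (hε1 : ε < 1) (hδ : 0 < δ) (hL : L = Real.log (Nat.card G)) (hκ : κ = k / L)
    (hℓ : ℓ = Real.log κ) (h1 : 6 ≤ ℓ) (h2 : 4 * ℓ ≤ L)
    (h3 : Real.exp (ε / 8 - ε ^ 2 / 32 * (L / ℓ)) ≤ δ / 2) :
    1 - Real.exp (-(ε / 2 * L)) / δ ^ 2 ≤
      prob G k (fun Z => tvDist Z ((1 + ε) * (L / ℓ)) ≤ δ) := by
  have hℓ0 : 0 < ℓ := by linarith
  have hL0 : 0 < L := by linarith
  have hκ0 : 0 < κ := by
    by_contra hcon
    push Not at hcon
    have hk0 : (0 : ℝ) ≤ k := Nat.cast_nonneg _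
    have h4 : 0 ≤ κ := by rw [hκ]; positivity
    have h5 : κ = 0 := le_antisymm hcon h4
    rw [h5, Real.log_zero] at hℓ
    linarith
  have hkr : (k : ℝ) = κ * L := by rw [hκ]; field_simp
  have hκ1 : 1 ≤ κ := by
    by_contra hcon
    push Not at hcon
    have := Real.log_neg hκ0 hcon
    linarith
  have hk0 : (0 : ℝ) < k := by rw [hkr]; positivity
  have hk0' : 0 < k := by exact_mod_cast hk0
  set τ := L / ℓ with hτ
  have hτ0 : 4 ≤ τ := by rw [hτ, le_div_iff₀ hℓ0]; linarith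
  set T := ⌈(1 + ε / 2) * τ⌉₊ with hT
  have hT1 : (1 + ε / 2) * τ ≤ T := Nat.le_ceil _
  have hT2 : (T : ℝ) ≤ (1 + ε / 2) * τ + 1 := (Nat.ceil_lt_add_one (by positivity)).le
  have hT3 : (T : ℝ) ≤ 2 * τ := by nlinarith
  have hTr : (0 : ℝ) < T := lt_of_lt_of_le (by positivity) hT1
  have hTpos : 0 < T := by exact_mod_cast hTr
  have hTk : T ≤ k := by
    have : (T : ℝ) ≤ k := by
      refine hT3.trans ?_
      rw [hkr, hτ, ← mul_div_assoc, div_le_iff₀ hℓ0]
      have : 1 ≤ κ * ℓ := one_le_mul_of_one_le_of_one_le hκ1 (by linarith)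
      nlinarith
    exact_mod_cast this
  have ht : 0 ≤ (1 + ε) * τ := by positivity
  -- the Poisson tail
  have hlam : (0 : ℝ) ≤ ε / 8 := by positivity
  have htail := pois_low ht T hlam
  have hexp : Real.exp (-(ε / 8)) - 1 ≤ -(ε / 8) + (ε / 8) ^ 2 := by
    have := Real.abs_exp_sub_one_sub_id_le (x := -(ε / 8)) (by
      rw [abs_neg, abs_of_nonneg hlam]; linarith)
    have := (abs_le.mp this).2
    rw [neg_sq] at this
    linarith
  have htail2 : ε / 8 * T + (1 + ε) * τ * (Real.exp (-(ε / 8)) - 1) ≤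
      ε / 8 - ε ^ 2 / 32 * τ := by
    have e1 := mul_le_mul_of_nonneg_left hexp ht
    have e2 := mul_le_mul_of_nonneg_left hT2 hlam
    have e3 : ε / 8 * ((1 + ε / 2) * τ + 1) + (1 + ε) * τ * (-(ε / 8) + (ε / 8) ^ 2) =
        ε / 8 - ε ^ 2 / 32 * τ - ε ^ 2 / 64 * τ * (1 - ε) := by ring
    have e4 : 0 ≤ ε ^ 2 / 64 * τ * (1 - ε) := mul_nonneg (by positivity) (by linarith)
    linarith
  have htail3 : ∑ j ∈ range T, pois ((1 + ε) * τ) j ≤ δ / 2 :=
    (htail.trans (Real.exp_le_exp.mpr htail2)).trans h3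
  -- collisions
  have hrho : (Fintype.card G : ℝ) * rho k T ≤ Real.exp (-(ε / 2 * L)) := by
    have hcG : (Fintype.card G : ℝ) = Real.exp L := by
      rw [hL, Nat.card_eq_fintype_card, Real.exp_log]
      exact_mod_cast Fintype.card_pos
    have e1 : Real.exp 1 * T / k ≤ Real.exp (-ℓ) := by
      have e2 : Real.exp (-ℓ) = 1 / κ := by
        rw [Real.exp_neg, hℓ, Real.exp_log hκ0, one_div]
      rw [e2, div_le_div_iff₀ hk0 hκ0, one_mul, hkr]
      have e3 : Real.exp 1 ≤ 3 := by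
        have := Real.exp_one_lt_d9; linarith
      calc Real.exp 1 * T * κ ≤ 3 * (2 * τ) * κ := by gcongr
        _ = κ * (6 / ℓ * L) := by rw [hτ]; field_simp; norm_num
        _ ≤ κ * (1 * L) := by
            have : 6 / ℓ ≤ 1 := by rw [div_le_one hℓ0]; exact h1
            gcongr
        _ = κ * L := by rw [one_mul]
    have e4 : rho k T ≤ Real.exp (-((1 + ε / 2) * L)) := by
      refine (rho_le hk0' hTpos).trans ((pow_le_pow_left₀ (by positivity) e1 T).trans ?_)
      rw [← Real.exp_nat_mul]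
      refine Real.exp_le_exp.mpr ?_
      have e5 : (1 + ε / 2) * τ * ℓ ≤ T * ℓ := mul_le_mul_of_nonneg_right hT1 hℓ0.le
      have e6 : (1 + ε / 2) * τ * ℓ = (1 + ε / 2) * L := by rw [hτ]; field_simp
      linarith
    rw [hcG]
    calc Real.exp L * rho k T ≤ Real.exp L * Real.exp (-((1 + ε / 2) * L)) :=
          mul_le_mul_of_nonneg_left e4 (Real.exp_pos _).le
      _ = Real.exp (-(ε / 2 * L)) := by rw [← Real.exp_add]; congr 1; ring
  have h4 := prob_dT (G := G) hk0' hTk (half_pos hδ)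
  have e1 : 4 * (δ / 2) ^ 2 = δ ^ 2 := by ring
  rw [e1] at h4
  have h5 : 1 - Real.exp (-(ε / 2 * L)) / δ ^ 2 ≤
      1 - (Fintype.card G : ℝ) * rho k T / δ ^ 2 := by
    have := div_le_div_of_nonneg_right hrho (sq_nonneg δ)
    linarith
  refine h5.trans (h4.trans (prob_mono fun Z hZ => ?_))
  have h6 := tvDist_le hk0' Z ht T
  linarith

section

variable (G : ℕ → Type) [∀ j, Group (G j)] [∀ j, Fintype (G j)] (k : ℕ → ℕ)
  (hcard : Tendsto (fun j => Nat.card (G j)) atTop atTop)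
  (hk : Tendsto (kap G k) atTop atTop)
  (hk2 : Tendsto (fun j => Real.log (k j) / LG G j) atTop (𝓝 0))

include hcard hk hk2 in
theorem upper {ε δ : ℝ} (hε : 0 < ε) (hε1 : ε < 1) (hδ : 0 < δ) :
    Tendsto (fun j => prob (G j) (k j) fun Z => tvDist Z ((1 + ε) * (LG G j / lk G k j)) ≤ δ)
      atTop (𝓝 1) := by
  have hl := lk_tendsto G k hk
  have hτ := tau_tendsto G k hcard hk hk2
  have hLG := LG_tendsto G hcard
  have he1 : Tendsto (fun j => 1 - Real.exp (-(ε / 2 * LG G j)) / δ ^ 2) atTop (𝓝 1) := by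
    have h1 : Tendsto (fun j => Real.exp (-(ε / 2 * LG G j))) atTop (𝓝 0) :=
      Real.tendsto_exp_neg_atTop_nhds_zero.comp (hLG.const_mul_atTop (by positivity))
    have h2 := (h1.div_const (δ ^ 2)).const_sub 1
    simpa using h2
  have he2 : Tendsto (fun j => Real.exp (ε / 8 - ε ^ 2 / 32 * (LG G j / lk G k j))) atTop
      (𝓝 0) := by
    refine Real.tendsto_exp_atBot.comp ?_
    have h1 : Tendsto (fun j => ε ^ 2 / 32 * (LG G j / lk G k j)) atTop atTop :=
      hτ.const_mul_atTop (by positivity)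
    exact tendsto_const_nhds.add_atBot (tendsto_neg_atTop_atBot.comp h1)
  refine tendsto_of_tendsto_of_tendsto_of_le_of_le' he1 tendsto_const_nhds ?_
    (Eventually.of_forall fun j => prob_le_one _)
  filter_upwards [hl.eventually_ge_atTop 6, hτ.eventually_ge_atTop 4,
    he2.eventually (gt_mem_nhds (half_pos hδ))] with j h1 h2 h3
  have hl0 : 0 < lk G k j := by linarith
  have h6 : 4 * lk G k j ≤ LG G j := by
    rw [le_div_iff₀ hl0] at h2
    exact h2
  exact upper_pointwise hε hε1 hδ rfl rfl rfl h1 h6 h3.le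

include hcard hk hk2 in
/-- Cutoff whp at `log|G| / log (k / log|G|)` for groups with an abelian subgroup of small index. -/
theorem cutoff (A : ∀ j, Subgroup (G j)) (hA : ∀ j, ∀ x ∈ A j, ∀ y ∈ A j, x * y = y * x)
    (hidx : Tendsto (fun j => Real.log (A j).index / lk G k j) atTop (𝓝 0)) :
    CutoffWhpAt G k (fun j => LG G j / lk G k j) := by
  intro ε hε hε1 δ hδ
  refine ⟨upper G k hcard hk hk2 hε hε1 hδ, ?_⟩
  refine tendsto_const_nhds.congr' ?_
  filter_upwards [lower G k hcard hk hk2 A hA hidx hε hδ,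
    (tau_tendsto G k hcard hk hk2).eventually_ge_atTop 0] with j h1 h2
  exact (prob_eq_one fun Z => h1 Z _ (mul_nonneg (by linarith) h2) le_rfl).symm

include hcard hk hk2 in
/-- No cutoff at `t_*`. -/
theorem noCutoff (A : ∀ j, Subgroup (G j)) (hA : ∀ j, ∀ x ∈ A j, ∀ y ∈ A j, x * y = y * x)
    (hidx : Tendsto (fun j => Real.log (A j).index / lk G k j) atTop (𝓝 0))
    {C c : ℝ} (hC : 0 < C) (hc : 0 < c)
    (hkC : ∀ᶠ j in atTop, (k j : ℝ) ≤ LG G j ^ C)
    (hab : ∀ᶠ j in atTop, Real.log (Nat.card (Abelianization (G j))) ≤ (1 - c) * LG G j) :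
    (∃ ε : ℝ, 0 < ε ∧ ε < 1 ∧ ∀ δ : ℝ, 0 < δ → ∀ᶠ j in atTop, ∀ Z : Fin (k j) → G j,
      1 - δ ≤ tvDist Z ((1 + ε) * tStar (G j) (k j))) ∧
    ¬ CutoffWhpAt G k (fun j => tStar (G j) (k j)) := by
  obtain ⟨ρ, hρ0, hρ1, hρ⟩ := tStar_le G k hcard hk hC hc hkC hab
  have hmain : ∃ ε : ℝ, 0 < ε ∧ ε < 1 ∧ ∀ δ : ℝ, 0 < δ → ∀ᶠ j in atTop,
      ∀ Z : Fin (k j) → G j, 1 - δ ≤ tvDist Z ((1 + ε) * tStar (G j) (k j)) := by
    refine ⟨(1 - ρ) / 2, by linarith, by linarith, fun δ hδ => ?_⟩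
    filter_upwards [lower G k hcard hk hk2 A hA hidx (ε := (1 - ρ) / 2) (by linarith) hδ, hρ,
      (tau_tendsto G k hcard hk hk2).eventually_ge_atTop 0] with j h1 h2 h3 Z
    refine h1 Z _ (mul_nonneg (by linarith) (tStar_nonneg G k j)) ?_
    calc (1 + (1 - ρ) / 2) * tStar (G j) (k j)
        ≤ (1 + (1 - ρ) / 2) * (ρ * (LG G j / lk G k j)) :=
          mul_le_mul_of_nonneg_left h2 (by linarith)
      _ = ((1 + (1 - ρ) / 2) * ρ) * (LG G j / lk G k j) := by ring
      _ ≤ _ := by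
          refine mul_le_mul_of_nonneg_right ?_ h3
          nlinarith
  refine ⟨hmain, fun h => ?_⟩
  obtain ⟨ε, h0, h1, h2⟩ := hmain
  have h3 := (h ε h0 h1 (1 / 2) (by norm_num)).1
  have h4 : ∀ᶠ j in atTop, prob (G j) (k j)
      (fun Z => tvDist Z ((1 + ε) * tStar (G j) (k j)) ≤ 1 / 2) = 0 := by
    filter_upwards [h2 (1 / 4) (by norm_num)] with j h5
    have : IsEmpty {Z : Fin (k j) → G j //
        tvDist Z ((1 + ε) * tStar (G j) (k j)) ≤ 1 / 2} := by
      refine ⟨fun Z => ?_⟩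
      have h6 := h5 Z.1
      have h7 := Z.2
      linarith
    unfold prob
    rw [Nat.card_of_isEmpty]
    simp
  have h5 := h3.congr' h4
  have h6 := tendsto_nhds_unique h5 tendsto_const_nhds
  norm_num at h6

end

end

end Pool.Agent.TH977.VA
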